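import Pool.Agent.W907.SG.Stmts2

/-!
SG2-EUL: if all but one degree are small and the Euler characteristic vanishes, the last degree is
small as well.
-/

set_option autoImplicit false

namespace Pool.Agent.W397.SG

open Module Pool.Agent.W907.SG

/-! ### isomorphic representations -/

section iso

variable {V F M M' : Type} [Fintype V] [LinearOrder V] [Field F] [AddCommGroup M] [Module F M]
  [AddCommGroup M'] [Module F M']

/-- the induced isomorphism of the chains -/
def EE (V : Type) (e : M ≃ₗ[F] M') : (Finset V → M) ≃ₗ[F] (Finset V → M') :=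
  LinearEquiv.piCongrRight fun _ => e

omit [Fintype V] [LinearOrder V] in
theorem EE_apply (e : M ≃ₗ[F] M') (c : Finset V → M) (T : Finset V) : EE V e c T = e (c T) := rfl

theorem EE_bd (e : M ≃ₗ[F] M') (c : Finset V → M) : bd F (EE V e c) = EE V e (bd F c) := by
  funext T
  rw [EE_apply, bd_apply, bd_apply, map_sum]
  refine Finset.sum_congr rfl fun v _ => ?_
  rw [EE_apply, map_zsmul]

variable {ρ : V → M →ₗ[F] M} {ρ' : V → M' →ₗ[F] M'} {e : M ≃ₗ[F] M'}

omit [Fintype V] [LinearOrder V] in
theorem KK_iff (h : ∀ v m, e (ρ v m) = ρ' v (e m)) (G : SimpleGraph V) (A S : Set V) (i : ℕ)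
    (c : Finset V → M) : EE V e c ∈ KK G ρ' A S i ↔ c ∈ KK G ρ A S i := by
  rw [mem_KK, mem_KK]
  refine and_congr ?_ ?_
  · refine forall_congr' fun T => imp_congr_right fun _ => ?_
    rw [EE_apply]
    exact e.map_eq_zero_iff
  · refine forall_congr' fun T => forall_congr' fun t => imp_congr_right fun _ => ?_
    rw [EE_apply, ← h, ← map_neg]
    exact e.injective.eq_iff

theorem beta_iso (h : ∀ v m, e (ρ v m) = ρ' v (e m)) (G : SimpleGraph V) (A S : Set V) (i : ℕ) :
    beta G ρ' A S i = beta G ρ A S i := by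
  have h1 : ∀ i, KK G ρ' A S i = (KK G ρ A S i).map (EE V e : (Finset V → M) →ₗ[F] _) := by
    intro i
    ext c
    rw [Submodule.mem_map]
    constructor
    · intro hc
      refine ⟨(EE V e).symm c, ?_, ?_⟩
      · rw [← KK_iff h, LinearEquiv.apply_symm_apply]
        exact hc
      · exact LinearEquiv.apply_symm_apply _ _
    · rintro ⟨d, hd, rfl⟩
      exact (KK_iff h G A S i d).2 hd
  have h2 : ZZ G ρ' A S i = (ZZ G ρ A S i).map (EE V e : (Finset V → M) →ₗ[F] _) := by
    ext c
    unfold ZZ
    rw [Submodule.mem_map, Submodule.mem_inf, h1, Submodule.mem_map]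
    constructor
    · rintro ⟨⟨d, hd, rfl⟩, hc⟩
      refine ⟨d, ⟨hd, ?_⟩, rfl⟩
      have h3 : EE V e (bd F d) = 0 := by rw [← EE_bd]; exact hc
      exact (EE V e).map_eq_zero_iff.1 h3
    · rintro ⟨d, ⟨hd, hd2⟩, rfl⟩
      refine ⟨⟨d, hd, rfl⟩, ?_⟩
      have hd3 : bd F d = 0 := hd2
      show bd F (EE V e d) = 0
      rw [EE_bd, hd3, map_zero]
  have h3 : BB G ρ' A S i = (BB G ρ A S i).map (EE V e : (Finset V → M) →ₗ[F] _) := by
    unfold BB
    rw [h1]
    ext c
    simp only [Submodule.mem_map]
    constructor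
    · rintro ⟨_, ⟨d, hd, rfl⟩, rfl⟩
      refine ⟨bd F d, ⟨d, hd, rfl⟩, ?_⟩
      exact (EE_bd e d).symm
    · rintro ⟨_, ⟨d, hd, rfl⟩, rfl⟩
      refine ⟨EE V e d, ⟨d, hd, rfl⟩, ?_⟩
      exact EE_bd e d
  unfold beta
  rw [h2, h3, LinearEquiv.finrank_map_eq, LinearEquiv.finrank_map_eq]

end iso

/-! ### products of `W_G`-sets -/

section prod

variable {V X Y : Type}

theorem foldr_prod (a : V → X → X) (b : V → Y → Y) (l : List V) (z : X × Y) :
    l.foldr (fun v (z : X × Y) => (a v z.1, b v z.2)) z = (l.foldr a z.1, l.foldr b z.2) := by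
  induction l with
  | nil => rfl
  | cons v l ih => rw [List.foldr_cons, ih]; rfl

theorem iter_prod (f : X × Y → X × Y) (g : X → X) (h : Y → Y) (hf : ∀ z, f z = (g z.1, h z.2))
    (n : ℕ) : ∀ z, f^[n] z = (g^[n] z.1, h^[n] z.2) := by
  induction n with
  | zero => intro z; rfl
  | succ n ih =>
    intro z
    rw [Function.iterate_succ_apply, ih, hf]
    rfl

theorem iter_pow (f : X → X) (p k k' : ℕ) (hk : k ≤ k') (h : ∀ x, f^[p ^ k] x = x) :
    ∀ x, f^[p ^ k'] x = x := by
  obtain ⟨j, rfl⟩ := Nat.exists_eq_add_of_le hk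
  have h1 : f^[p ^ k] = id := funext h
  intro x
  rw [pow_add, Function.iterate_mul, h1, Function.iterate_id]
  rfl

/-- the product -/
def prodP {G : SimpleGraph V} (P : PSet 3 G X) (Q : PSet 3 G Y) : PSet 3 G (X × Y) where
  a v z := (P.a v z.1, Q.a v z.2)
  inv v z := by
    show (P.a v (P.a v z.1), Q.a v (Q.a v z.2)) = z
    rw [P.inv, Q.inv]
  comm u v huv z := by
    show (P.a u (P.a v z.1), Q.a u (Q.a v z.2)) = (P.a v (P.a u z.1), Q.a v (Q.a u z.2))
    rw [P.comm u v huv, Q.comm u v huv]
  sgn v z := P.sgn v z.1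
  sgn_self v z := P.sgn_self v z.1
  sgn_other u v huv z := P.sgn_other u v huv z.1
  ptype l hl := by
    obtain ⟨k1, h1⟩ := P.ptype l hl
    obtain ⟨k2, h2⟩ := Q.ptype l hl
    refine ⟨max k1 k2, fun z => ?_⟩
    rw [iter_prod _ (fun y => l.foldr P.a y) (fun y => l.foldr Q.a y)
      (fun z => foldr_prod P.a Q.a l z),
      iter_pow _ 3 k1 (max k1 k2) (le_max_left _ _) h1 z.1,
      iter_pow _ 3 k2 (max k1 k2) (le_max_right _ _) h2 z.2]

theorem family (hML : S_ML) [Fintype V] [LinearOrder V] (G : SimpleGraph V) (N m0 : ℕ)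
    (h0 : SP G m0) (I : Finset ℕ) (hI : ∀ i ∈ I, SP G i) :
    ∃ (X : Type) (_ : Fintype X) (_ : Nonempty X) (P : PSet 3 G X), ∀ i ∈ I,
      N * beta G (pull (ZMod 3) P.a) Set.univ ∅ i ≤ Fintype.card X := by
  classical
  induction I using Finset.induction_on with
  | empty =>
    obtain ⟨X, f, ne, P, _⟩ := h0 inferInstance inferInstance N
    exact ⟨X, f, ne, P, fun i hi => absurd hi (Finset.notMem_empty i)⟩
  | insert j I hj ih =>
    obtain ⟨X, f, ne, P, hP⟩ := ih fun i hi => hI i (Finset.mem_insert_of_mem hi)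
    obtain ⟨Y, f', ne', Q, hQ⟩ := hI j (Finset.mem_insert_self j I) inferInstance inferInstance N
    refine ⟨X × Y, inferInstance, inferInstance, prodP P Q, fun i hi => ?_⟩
    rw [Fintype.card_prod]
    rcases Finset.mem_insert.1 hi with rfl | hi
    · have h1 := hML V Y X G Q.a Q.sgn P.a Q.inv Q.comm Q.sgn_self Q.sgn_other P.inv P.comm
        P.ptype i
      have h2 : beta G (pull (ZMod 3) (prodP P Q).a) Set.univ ∅ i =
          beta G (pull (ZMod 3) (fun v (z : Y × X) => (Q.a v z.1, P.a v z.2))) Set.univ ∅ i := by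
        refine beta_iso (e := LinearEquiv.funCongrLeft (ZMod 3) (ZMod 3) (Equiv.prodComm X Y)) ?_
          G Set.univ ∅ i
        intro v m
        rfl
      rw [h2]
      calc N * beta G (pull (ZMod 3) (fun v (z : Y × X) => (Q.a v z.1, P.a v z.2))) Set.univ ∅ i
          ≤ N * (Fintype.card X * beta G (pull (ZMod 3) Q.a) Set.univ ∅ i) :=
            Nat.mul_le_mul_left _ h1
        _ = Fintype.card X * (N * beta G (pull (ZMod 3) Q.a) Set.univ ∅ i) := by ring
        _ ≤ Fintype.card X * Fintype.card Y := Nat.mul_le_mul_left _ hQ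
    · have h1 := hML V X Y G P.a P.sgn Q.a P.inv P.comm P.sgn_self P.sgn_other Q.inv Q.comm
        Q.ptype i
      calc N * beta G (pull (ZMod 3) (prodP P Q).a) Set.univ ∅ i
          ≤ N * (Fintype.card Y * beta G (pull (ZMod 3) P.a) Set.univ ∅ i) :=
            Nat.mul_le_mul_left _ h1
        _ = Fintype.card Y * (N * beta G (pull (ZMod 3) P.a) Set.univ ∅ i) := by ring
        _ ≤ Fintype.card Y * Fintype.card X := Nat.mul_le_mul_left _ (hP i hi)
        _ = Fintype.card X * Fintype.card Y := mul_comm _ _

end prod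

/-! ### the Euler characteristic -/

section euler

variable {V F M : Type} [Fintype V] [LinearOrder V] [Field F] [AddCommGroup M] [Module F M]
  [FiniteDimensional F M]

theorem rank_null {E E' : Type} [AddCommGroup E] [Module F E] [FiniteDimensional F E]
    [AddCommGroup E'] [Module F E'] (f : E →ₗ[F] E') (K : Submodule F E) :
    finrank F (K ⊓ LinearMap.ker f : Submodule F E) + finrank F (K.map f) = finrank F K := by
  have h1 := LinearMap.finrank_range_add_finrank_ker (f.domRestrict K)
  have h2 : LinearMap.range (f.domRestrict K) = K.map f := by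
    rw [LinearMap.range_domRestrict]
  have h3 : (LinearMap.ker (f.domRestrict K)).map K.subtype = K ⊓ LinearMap.ker f := by
    ext x
    rw [Submodule.mem_map, Submodule.mem_inf]
    constructor
    · rintro ⟨y, hy, rfl⟩
      exact ⟨y.2, hy⟩
    · rintro ⟨hx, hx2⟩
      exact ⟨⟨x, hx⟩, hx2, rfl⟩
  rw [h2] at h1
  rw [← h3, Submodule.finrank_map_subtype_eq]
  omega

theorem zz_zero (G : SimpleGraph V) (ρ : V → M →ₗ[F] M) (A S : Set V) :
    finrank F (ZZ G ρ A S 0) = finrank F (KK G ρ A S 0) := by
  have h : ZZ G ρ A S 0 = KK G ρ A S 0 := by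
    unfold ZZ
    refine inf_eq_left.2 ?_
    intro c hc
    rw [LinearMap.mem_ker]
    funext T
    rw [bd_apply]
    refine Finset.sum_eq_zero fun v _ => ?_
    rw [hc.1 (insert v T), smul_zero]
    rintro ⟨_, _, h3⟩
    rw [Finset.card_eq_zero] at h3
    exact Finset.insert_ne_empty v T h3
  rw [h]

theorem euler (G : SimpleGraph V) (ρ : V → M →ₗ[F] M) (A S : Set V) (n : ℕ) :
    ∑ i ∈ Finset.range (n + 1), (-1 : ℤ) ^ i * (beta G ρ A S i : ℤ) =
      ∑ i ∈ Finset.range (n + 1), (-1 : ℤ) ^ i * (finrank F (KK G ρ A S i) : ℤ) -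
        (-1) ^ n * (finrank F (BB G ρ A S n) : ℤ) := by
  have hb : ∀ i, (beta G ρ A S i : ℤ) =
      (finrank F (ZZ G ρ A S i) : ℤ) - (finrank F (BB G ρ A S i) : ℤ) := by
    intro i
    unfold beta
    rw [Nat.cast_sub (Submodule.finrank_mono (BB_le_ZZ G ρ A S i))]
  induction n with
  | zero =>
    rw [Finset.sum_range_one, Finset.sum_range_one, hb, zz_zero]
    ring
  | succ n ih =>
    rw [Finset.sum_range_succ, ih, Finset.sum_range_succ (n := n + 1), hb]
    have h1 : finrank F (ZZ G ρ A S (n + 1)) + finrank F (BB G ρ A S n) =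
        finrank F (KK G ρ A S (n + 1)) := rank_null (bd F) (KK G ρ A S (n + 1))
    rw [← h1]
    push_cast
    ring

theorem KK_big (G : SimpleGraph V) (ρ : V → M →ₗ[F] M) (A S : Set V) {i : ℕ}
    (hi : Fintype.card V < i) : KK G ρ A S i = ⊥ := by
  rw [eq_bot_iff]
  intro c hc
  rw [Submodule.mem_bot]
  funext T
  refine hc.1 T ?_
  rintro ⟨_, _, h3⟩
  have := Finset.card_le_univ T
  omega

theorem beta_big (G : SimpleGraph V) (ρ : V → M →ₗ[F] M) (A S : Set V) {i : ℕ}
    (hi : Fintype.card V < i) : beta G ρ A S i = 0 := by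
  unfold beta ZZ
  rw [KK_big G ρ A S hi, bot_inf_eq, finrank_bot, Nat.zero_sub]

end euler

/-! ### the dimension of the chains -/

section dim

variable {V X F : Type} [Field F]

/-- functions on which all `t ∈ T` act by `-1` -/
def ET (F : Type) [Field F] (a : V → X → X) (T : Finset V) : Submodule F (X → F) where
  carrier := {f | ∀ t ∈ T, ∀ x, f (a t x) = - f x}
  add_mem' := by
    intro f g hf hg t ht x
    simp only [Pi.add_apply, hf t ht x, hg t ht x]
    ring
  zero_mem' := by
    intro t _ x
    simp
  smul_mem' := by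
    intro r f hf t ht x
    simp only [Pi.smul_apply, hf t ht x, smul_neg]

/-- multiplication by the sign -/
def sgM (F : Type) [Field F] (s : X → Bool) : (X → F) ≃ₗ[F] (X → F) where
  toFun f x := (if s x then -1 else 1) * f x
  invFun f x := (if s x then -1 else 1) * f x
  map_add' f g := by
    funext x
    simp only [Pi.add_apply]
    ring
  map_smul' r f := by
    funext x
    simp only [Pi.smul_apply, smul_eq_mul, RingHom.id_apply]
    ring
  left_inv f := by
    funext x
    show (if s x then (-1 : F) else 1) * ((if s x then -1 else 1) * f x) = f x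
    split_ifs <;> simp
  right_inv f := by
    funext x
    show (if s x then (-1 : F) else 1) * ((if s x then -1 else 1) * f x) = f x
    split_ifs <;> simp

theorem ET_dim [Fintype X] [DecidableEq V] (h2 : (2 : F) ≠ 0) (G : SimpleGraph V) (a : V → X → X)
    (sgn : V → X → Bool) (hinv : ∀ v x, a v (a v x) = x)
    (hcomm : ∀ u v, G.Adj u v → ∀ x, a u (a v x) = a v (a u x))
    (hs : ∀ v x, sgn v (a v x) = !(sgn v x)) (ho : ∀ u v, u ≠ v → ∀ x, sgn u (a v x) = sgn u x)
    (T : Finset V) : G.IsClique (T : Set V) →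
      finrank F (ET F a T) * 2 ^ T.card = Fintype.card X := by
  induction T using Finset.induction_on with
  | empty =>
    intro _
    have : ET F a ∅ = ⊤ := by
      rw [eq_top_iff]
      intro f _ t ht
      exact absurd ht (Finset.notMem_empty t)
    rw [this, finrank_top, Module.finrank_fintype_fun_eq_card]
    simp
  | insert t T ht ih =>
    intro hc
    have hcT : G.IsClique (T : Set V) := hc.subset (by simp)
    have hadj : ∀ u ∈ T, G.Adj u t := by
      intro u hu
      refine hc (by simp [hu]) (by simp) ?_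
      rintro rfl
      exact ht hu
    obtain ⟨P, hP⟩ : ∃ P : Submodule F (X → F), ∀ f, f ∈ P ↔ (f ∈ ET F a T ∧ ∀ x, f (a t x) = f x) :=
      ⟨{ carrier := {f | f ∈ ET F a T ∧ ∀ x, f (a t x) = f x}
         add_mem' := by
          rintro f g ⟨h1, h3⟩ ⟨h4, h5⟩
          refine ⟨add_mem h1 h4, fun x => ?_⟩
          rw [Pi.add_apply, Pi.add_apply, h3, h5]
         zero_mem' := ⟨zero_mem _, fun _ => rfl⟩
         smul_mem' := by
          rintro r f ⟨h1, h3⟩
          refine ⟨Submodule.smul_mem _ r h1, fun x => ?_⟩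
          rw [Pi.smul_apply, Pi.smul_apply, h3] }, fun f => Iff.rfl⟩
    have hQ : ∀ f, f ∈ ET F a (insert t T) ↔ (f ∈ ET F a T ∧ ∀ x, f (a t x) = - f x) := by
      intro f
      constructor
      · intro h
        exact ⟨fun u hu => h u (Finset.mem_insert_of_mem hu), h t (Finset.mem_insert_self _ _)⟩
      · rintro ⟨h1, h3⟩ u hu
        rcases Finset.mem_insert.1 hu with rfl | hu
        · exact h3
        · exact h1 u hu
    have hsup : P ⊔ ET F a (insert t T) = ET F a T := by
      apply le_antisymm
      · refine sup_le (fun f hf => ((hP f).1 hf).1) (fun f hf => ((hQ f).1 hf).1)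
      · intro f hf
        have hft : (fun x => f (a t x)) ∈ ET F a T := by
          intro u hu x
          show f (a t (a u x)) = - f (a t x)
          rw [← hcomm u t (hadj u hu), hf u hu]
        have e : f = (2 : F)⁻¹ • (f + fun x => f (a t x)) + (2 : F)⁻¹ • (f - fun x => f (a t x)) := by
          rw [← smul_add]
          have : (f + fun x => f (a t x)) + (f - fun x => f (a t x)) = (2 : F) • f := by
            rw [two_smul]; abel
          rw [this, smul_smul, inv_mul_cancel₀ h2, one_smul]
        rw [e]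
        refine Submodule.add_mem_sup ?_ ?_
        · rw [hP]
          refine ⟨Submodule.smul_mem _ _ (add_mem hf hft), fun x => ?_⟩
          simp only [Pi.smul_apply, Pi.add_apply, hinv]
          rw [add_comm]
        · rw [hQ]
          refine ⟨Submodule.smul_mem _ _ (sub_mem hf hft), fun x => ?_⟩
          simp only [Pi.smul_apply, Pi.sub_apply, hinv, smul_eq_mul]
          ring
    have hinf : P ⊓ ET F a (insert t T) = ⊥ := by
      rw [eq_bot_iff]
      rintro f ⟨h1, h3⟩
      rw [Submodule.mem_bot]
      funext x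
      have h4 := ((hP f).1 h1).2 x
      have h5 := ((hQ f).1 h3).2 x
      rw [h4] at h5
      have h6 : (2 : F) * f x = 0 := by linear_combination h5
      rcases mul_eq_zero.1 h6 with h7 | h7
      · exact absurd h7 h2
      · exact h7
    have hmap : P.map (sgM F (sgn t) : (X → F) →ₗ[F] (X → F)) = ET F a (insert t T) := by
      have key : ∀ f, sgM F (sgn t) f ∈ ET F a (insert t T) ↔ f ∈ P := by
        intro f
        rw [hP, hQ]
        refine and_congr ?_ ?_
        · refine forall_congr' fun u => ?_
          refine ⟨fun h hu x => ?_, fun h hu x => ?_⟩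
          · have h3 := h hu x
            have hut : t ≠ u := by rintro rfl; exact ht hu
            change (if sgn t (a u x) then (-1 : F) else 1) * f (a u x) =
              -((if sgn t x then -1 else 1) * f x) at h3
            rw [ho t u hut] at h3
            cases h4 : sgn t x
            · simpa [h4] using h3
            · simp only [h4, if_true] at h3
              linear_combination -h3
          · have h3 := h hu x
            have hut : t ≠ u := by rintro rfl; exact ht hu
            show (if sgn t (a u x) then (-1 : F) else 1) * f (a u x) =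
              -((if sgn t x then -1 else 1) * f x)
            rw [ho t u hut, h3]
            ring
        · refine forall_congr' fun x => ?_
          show (if sgn t (a t x) then (-1 : F) else 1) * f (a t x) =
              -((if sgn t x then -1 else 1) * f x) ↔ _
          rw [hs]
          cases h4 : sgn t x
          · simp
          · simp
      ext f
      rw [Submodule.mem_map]
      constructor
      · rintro ⟨g, hg, rfl⟩
        exact (key g).2 hg
      · intro hf
        refine ⟨(sgM F (sgn t)).symm f, ?_, ?_⟩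
        · rw [← key, LinearEquiv.apply_symm_apply]
          exact hf
        · exact LinearEquiv.apply_symm_apply _ _
    have hfr : finrank F (ET F a (insert t T)) = finrank F P := by
      rw [← hmap, LinearEquiv.finrank_map_eq]
    have hd := Submodule.finrank_sup_add_finrank_inf_eq P (ET F a (insert t T))
    rw [hsup, hinf, finrank_bot] at hd
    have h6 := ih hcT
    rw [Finset.card_insert_of_notMem ht, pow_succ, ← h6]
    have h7 : finrank F (ET F a T) = 2 * finrank F (ET F a (insert t T)) := by omega
    rw [h7]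
    ring

open Classical in
/-- the chains as a product -/
theorem KK_dim [Fintype V] [Fintype X] [LinearOrder V] (G : SimpleGraph V) (a : V → X → X)
    (i : ℕ) : finrank F (KK G (pull F a) Set.univ ∅ i) =
      ∑ T : Finset V, if G.IsClique (T : Set V) ∧ T.card = i then finrank F (ET F a T) else 0 := by
  obtain ⟨p, hp⟩ : ∃ p : Finset V → Submodule F (X → F), p = fun T : Finset V =>
    if G.IsClique (T : Set V) ∧ T.card = i then ET F a T else ⊥ := ⟨_, rfl⟩
  have hmem : ∀ c : Finset V → (X → F), c ∈ KK G (pull F a) Set.univ ∅ i ↔ ∀ T, c T ∈ p T := by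
    intro c
    rw [mem_KK]
    constructor
    · rintro ⟨h1, h2⟩ T
      rw [hp]
      simp only []
      split_ifs with h
      · intro t ht x
        have := h2 T t (Or.inl ht)
        exact congrFun this x
      · rw [Submodule.mem_bot]
        refine h1 T ?_
        rintro ⟨h3, _, h4⟩
        exact h ⟨h3, h4⟩
    · intro h
      refine ⟨fun T hT => ?_, fun T t ht => ?_⟩
      · have h3 := h T
        rw [hp] at h3
        simp only [] at h3
        rw [if_neg] at h3
        · exact h3
        · rintro ⟨h4, h5⟩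
          exact hT ⟨h4, Set.subset_univ _, h5⟩
      · have h3 := h T
        rw [hp] at h3
        simp only [] at h3
        have ht' : t ∈ T := by
          rcases ht with ht | ht
          · exact ht
          · exact absurd ht (Set.notMem_empty t)
        split_ifs at h3 with h4
        · funext x
          exact h3 t ht' x
        · have h5 : c T = 0 := h3
          rw [h5, map_zero, neg_zero]
  have e : KK G (pull F a) Set.univ ∅ i ≃ₗ[F] (∀ T : Finset V, p T) :=
    { toFun := fun c T => ⟨c.1 T, (hmem c.1).1 c.2 T⟩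
      map_add' := fun _ _ => rfl
      map_smul' := fun _ _ => rfl
      invFun := fun g => ⟨fun T => (g T).1, (hmem _).2 fun T => (g T).2⟩
      left_inv := fun _ => rfl
      right_inv := fun _ => rfl }
  rw [e.finrank_eq, Module.finrank_pi_fintype]
  refine Finset.sum_congr rfl fun T _ => ?_
  by_cases h : G.IsClique (T : Set V) ∧ T.card = i
  · have h1 : p T = ET F a T := by rw [hp]; exact if_pos h
    rw [h1, if_pos h]
  · have h1 : p T = ⊥ := by rw [hp]; exact if_neg h
    rw [h1, if_neg h, finrank_bot]

end dim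

theorem two_ne : (2 : ZMod 3) ≠ 0 := by decide

/-- the alternating sum of the dimensions -/
theorem chi_dim {V X : Type} [Fintype V] [LinearOrder V] [Fintype X] (G : SimpleGraph V)
    (P : PSet 3 G X) :
    ((∑ i ∈ Finset.range (Fintype.card V + 1), (-1 : ℤ) ^ i *
      (finrank (ZMod 3) (KK G (pull (ZMod 3) P.a) Set.univ ∅ i) : ℤ) : ℤ) : ℚ) =
      Fintype.card X * chiW G := by
  classical
  have : Fact (Nat.Prime 3) := ⟨Nat.prime_three⟩
  have h2 := two_ne
  push_cast
  have h1 : ∀ i ∈ Finset.range (Fintype.card V + 1), (-1 : ℚ) ^ i *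
      (finrank (ZMod 3) (KK G (pull (ZMod 3) P.a) Set.univ ∅ i) : ℚ) =
      ∑ T : Finset V, if T.card = i then (Fintype.card X : ℚ) *
        (if G.IsClique (T : Set V) then (-1 / 2 : ℚ) ^ T.card else 0) else 0 := by
    intro i _
    rw [KK_dim, Nat.cast_sum, Finset.mul_sum]
    refine Finset.sum_congr rfl fun T _ => ?_
    by_cases hT : G.IsClique (T : Set V)
    · by_cases hi : T.card = i
      · have h3 := ET_dim h2 G P.a P.sgn P.inv P.comm P.sgn_self P.sgn_other T hT
        rw [if_pos ⟨hT, hi⟩, if_pos hi, if_pos hT, ← h3, ← hi]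
        push_cast
        rw [div_pow]
        field_simp
      · rw [if_neg (fun h => hi h.2), if_neg hi]
        simp
    · rw [if_neg (fun h => hT h.1), if_neg hT]
      simp
  rw [Finset.sum_congr rfl h1, Finset.sum_comm, chiW, Finset.mul_sum]
  refine Finset.sum_congr rfl fun T _ => ?_
  rw [Finset.sum_ite_eq, if_pos]
  · congr
  · rw [Finset.mem_range]
    have := Finset.card_le_univ T
    omega

theorem eul (hML : S_ML) : S_EUL := by
  intro V instF G m hSP hchi instF' instL N
  obtain rfl : instF = instF' := Subsingleton.elim _ _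
  have : Fact (Nat.Prime 3) := ⟨Nat.prime_three⟩
  set n := Fintype.card V with hn
  obtain ⟨X, fX, neX, P, hP⟩ := family hML G (N * (n + 1)) (m + 1) (hSP (m + 1) (by omega))
    ((Finset.range (n + 1)).erase m) (fun i hi => hSP i (Finset.ne_of_mem_erase hi))
  refine ⟨X, fX, neX, P, ?_⟩
  by_cases hm : n < m
  · rw [beta_big G _ Set.univ ∅ hm, mul_zero]
    exact Nat.zero_le _
  · have hmr : m ∈ Finset.range (n + 1) := by
      rw [Finset.mem_range]; omega
    have h1 := euler G (pull (ZMod 3) P.a) Set.univ ∅ n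
    have hBB : finrank (ZMod 3) (BB G (pull (ZMod 3) P.a) Set.univ ∅ n) = 0 := by
      unfold BB
      rw [KK_big G _ Set.univ ∅ (by omega : Fintype.card V < n + 1), Submodule.map_bot,
        finrank_bot]
    rw [hBB] at h1
    have h2 := chi_dim G P
    rw [hchi, mul_zero] at h2
    have h3 : ∑ i ∈ Finset.range (n + 1), (-1 : ℤ) ^ i *
      (finrank (ZMod 3) (KK G (pull (ZMod 3) P.a) Set.univ ∅ i) : ℤ) = 0 := by exact_mod_cast h2
    rw [h3, Nat.cast_zero, mul_zero, sub_zero, ← Finset.add_sum_erase _ _ hmr] at h1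
    have h4 : (beta G (pull (ZMod 3) P.a) Set.univ ∅ m : ℤ) ≤
        ∑ i ∈ (Finset.range (n + 1)).erase m, (beta G (pull (ZMod 3) P.a) Set.univ ∅ i : ℤ) := by
      have h5 : |(-1 : ℤ) ^ m * (beta G (pull (ZMod 3) P.a) Set.univ ∅ m : ℤ)| =
          |∑ i ∈ (Finset.range (n + 1)).erase m,
            (-1 : ℤ) ^ i * (beta G (pull (ZMod 3) P.a) Set.univ ∅ i : ℤ)| := by
        rw [eq_neg_of_add_eq_zero_left h1, abs_neg]
      have h6 : ∀ i, |(-1 : ℤ) ^ i * (beta G (pull (ZMod 3) P.a) Set.univ ∅ i : ℤ)| =
          (beta G (pull (ZMod 3) P.a) Set.univ ∅ i : ℤ) := by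
        intro i
        rw [abs_mul, abs_pow, abs_neg, abs_one, one_pow, one_mul, Nat.abs_cast]
      rw [h6] at h5
      rw [h5]
      refine (Finset.abs_sum_le_sum_abs _ _).trans (le_of_eq ?_)
      exact Finset.sum_congr rfl fun i _ => h6 i
    have h4' : beta G (pull (ZMod 3) P.a) Set.univ ∅ m ≤
        ∑ i ∈ (Finset.range (n + 1)).erase m, beta G (pull (ZMod 3) P.a) Set.univ ∅ i := by
      exact_mod_cast h4
    have h7 : (n + 1) * (N * beta G (pull (ZMod 3) P.a) Set.univ ∅ m) ≤
        (n + 1) * Fintype.card X := by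
      calc (n + 1) * (N * beta G (pull (ZMod 3) P.a) Set.univ ∅ m)
          = N * (n + 1) * beta G (pull (ZMod 3) P.a) Set.univ ∅ m := by ring
        _ ≤ N * (n + 1) * ∑ i ∈ (Finset.range (n + 1)).erase m,
            beta G (pull (ZMod 3) P.a) Set.univ ∅ i := Nat.mul_le_mul_left _ h4'
        _ = ∑ i ∈ (Finset.range (n + 1)).erase m,
            N * (n + 1) * beta G (pull (ZMod 3) P.a) Set.univ ∅ i := Finset.mul_sum _ _ _
        _ ≤ ∑ _i ∈ (Finset.range (n + 1)).erase m, Fintype.card X :=
            Finset.sum_le_sum fun i hi => hP i hi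
        _ = ((Finset.range (n + 1)).erase m).card * Fintype.card X := by
            rw [Finset.sum_const, smul_eq_mul]
        _ ≤ (n + 1) * Fintype.card X := by
            apply Nat.mul_le_mul_right
            exact (Finset.card_erase_le).trans (le_of_eq (Finset.card_range _))
    exact Nat.le_of_mul_le_mul_left h7 (Nat.succ_pos n)

end Pool.Agent.W397.SG
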